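import Pool.Agent.helper65.GF.SpecG

/-! Row YHP (MP_ea335c_an, polynomials of Bazilevic functions of type 1/2). -/

set_option autoImplicit false

namespace Pool.Agent.GD

open Finset Metric Filter Topology

theorem YHP (h1 : YHZ_stmt) : YHP_stmt := by
  intro N w x κ A r hA hκ hA1 hr
  obtain ⟨s, rfl⟩ : ∃ s, r = s + 1 := ⟨r - 1, by omega⟩
  refine XPB_gen h_XAV (ex 1 (mom w x)) (ex (-1) (mom w x)) κ A s _ hκ fun y hy => ?_
  have za := h1 N w x y A (s + 1) hA hy hA1
  have zb := h1 N w x y A s hA hy hA1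
  refine (add_le_add za zb).trans (le_of_eq ?_)
  push_cast
  ring

end Pool.Agent.GD
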